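import Pool.Agent.H621.OV.Twr

/-!
# The Tate conjecture for the products of an arbitrary smooth variety with almost all members of an
# independent family

Let `F` be a finitely generated field, `k` its algebraic closure, and let `X_i`, `i ∈ J`, be a finite or
infinite family of smooth varieties over `F` which is **independent**: for every finite part `A` of the
family the monodromy group (the Zariski closure of the image of the Galois group, up to finite index) of
the product of the `X_i`, `i ∈ A`, is the product of the monodromy groups of the `X_i` over the
multiplicative group (which acts on the Tate twists). Nothing else is assumed on the monodromy groups:
they can be tori (complex multiplication), products, or any reductive groups.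

**Theorem.** Let `U` be **any** smooth variety over `F`, not necessarily proper. There is a finite subset
`S` of `J` such that for all pairwise different `i_1, …, i_m ∈ J` which are not in `S`, and for all `n_r`
and `s`, for `Y = X_{i_1}^(n_1) × ⋯ × X_{i_m}^(n_m) × U^s`:

* every Tate class on `Y` is a linear combination of products of Tate classes on the factors
  (unconditionally);
* for every `n`, the Tate conjecture for `Y` in the codimensions `≤ n` holds **if and only if** it holds
  for `U^s` and for all `X_{i_r}^(n_r)` in the codimensions `≤ n`.

The cohomology of `U` can be mixed, and the Galois representation is not assumed to be semisimple;
neither Poincaré duality nor a compactification is used. The set `S` depends only on the family and on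
the Galois representation `H(U)`.

For instance, let `X_i`, `i ∈ J`, be elliptic curves over a number field, one from each isogeny class over
the algebraic closure, with or without complex multiplication, or the complements of the origin in
these curves. This family is independent (Serre, Ribet, Imai), and the Tate conjecture is known for all
powers of the elliptic curves. Hence for every smooth variety `U` and all elliptic curves outside of
finitely many isogeny classes the Tate conjecture for `X_{i_1}^(n_1) × ⋯ × X_{i_m}^(n_m) × U^s` is
equivalent to the Tate conjecture for `U^s`, in all codimensions or in the codimensions `≤ n`. For
`n = 1` this is a statement on divisors on open varieties, for `n = 2` on cycles of codimension two.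

## The formal statement

`SmCohomology k` is a cohomology theory for **all smooth varieties** over `k` (étale cohomology with
coefficients in the closure of `ℚ_ℓ`): finite-dimensional graded algebras with pull-backs, the Künneth
formula, and classes of algebraic cycles, compatible with pull-backs and products. `Γ` is a group (the
Galois group), `χ` a character (the inverse of the cyclotomic character), and an `OVar C Γ` is a smooth
variety with an action of `Γ` on its cohomology algebra. A Tate class of codimension `j` is an element of
`H^(2j)` which is multiplied by `χ g ^ j` by all `g` in a subgroup of finite index, and
`TateUpTo χ n X` says that for `j ≤ n` all Tate classes of codimension `j` on `X` are linear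
combinations of classes of algebraic cycles. `F i` is a set of varieties, for instance the set of the
powers of `X_i`; `IsTower F U l Y` says that `Y = X_1 × (X_2 × ( ⋯ × U))` with `X_r ∈ F i_r`, where `l`
is the list of the pairs `(i_r, X_r)`. `TateClassesSplit χ U l Y` says that the Tate classes of
codimension `j` on `Y` are linear combinations of products of Tate classes on the factors, whose
codimensions have the sum `j`.

The independence is expressed by elements of `Γ`: for every finite part `A` of `J` there is `g ∈ Γ`
such that (`IndependentFamily`)

* `g` is generic for all `X ∈ F i`, `i ∈ A` (`IsGeneric`): on every subspace of the cohomology of `X`
  which is stable under a subgroup `Δ` of finite index and which does not consist of sums of Tate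
  classes, the powers `g ^ m ∈ Δ` have an eigenvalue no power of which is a power of `χ g`;
* the groups generated by the eigenvalues of `g` on the cohomology of the varieties in `F i` are
  independent for different `i ∈ A`, modulo roots of unity and roots of powers of `χ g`
  (`IndependentModulo`).

Nothing of this kind is required of `U`: it enters through a finite-dimensional representation `V` of
`Γ`, for instance `V = H(U)`. `EigenvaluesFrom χ V F S U'` says that the eigenvalues of all `g` on the
cohomology of `U'` are in the group generated by `χ g`, the eigenvalues of `g` on `V` and on the
cohomology of the varieties in `F i`, `i ∈ S`; this is so for all powers of `U`. The exceptional set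
`S` depends only on the family and on `V`.

## Proof

A Tate class `t` on `X × Y` is an equivariant map up to twist from the dual of the cohomology of `Y` to
the cohomology of `X`. If its image is spanned by Tate classes, then `t` is a sum of products of Tate
classes. Otherwise `X` and `Y` are linked: an eigenvalue `x` of a power of a generic element `g` on the
image, not a root of a power of `χ g`, is the inverse (up to a power of `χ g`) of an eigenvalue on the
cohomology of `Y`. The number of the linked steps in a sequence of members of the family is at most
`dim V`, as the relations are triangular; a sequence with the maximal number of linked steps gives `S`.
Conversely the Tate conjecture passes from the product to the factors by restriction to the fibres of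
the projections.
-/

open CategoryTheory AlgebraicGeometry

universe u

namespace Pool.Agent.Results.MP_2a05c8_ag.AlmostAllFactors

open Pool.Agent.H621.AF Pool.Agent.H621.OV

/-- **The Tate conjecture for the products of an arbitrary smooth variety with almost all members of an
independent family.** -/
theorem result {k : Type u} [Field k] {C : SmCohomology k} [IsAlgClosed C.K] {Γ : Type} [Group Γ]
    (χ : Γ →* C.Kˣ) {J : Type} (F : J → Set (OVar C Γ)) (hF : IndependentFamily χ F)
    (P : FinRep C.K Γ) :
    ∃ S : Finset J, ∀ U : OVar C Γ, RespectsDegrees U → EigenvaluesFrom χ P F S U →
      ∀ (l : List (J × OVar C Γ)) (Y : OVar C Γ), IsTower F U l Y → (∀ p ∈ l, p.1 ∉ S) →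
        TateClassesSplit χ U l Y ∧
        ∀ n : ℕ, TateUpTo χ n Y ↔ TateUpTo χ n U ∧ ∀ p ∈ l, TateUpTo χ n p.2 := by
  obtain ⟨S, hS⟩ := exists_exceptional hF P
  exact ⟨S, fun U h1 h2 l Y hY hl => ⟨split_tower hF hS h1 h2 hY hl,
    tate_tower hF hS h1 h2 hY hl⟩⟩

end Pool.Agent.Results.MP_2a05c8_ag.AlmostAllFactors
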