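import Pool.Agent.H547_as.Paired

/-!
# The Tate conjecture for smooth affine Artin-Schreier varieties, up to a bounded factor

Let `k` be a finitely generated field of characteristic `p > 0`, `m` prime to `p`, and let `X` be the
product of the smooth affine hypersurfaces `X_j` of dimension `2 k_j` given by
`y ^ q_j - y = sum_l (c_jl * x_l ^ d_jl + c'_jl * z_l ^ d_jl)`, `1 ≤ l ≤ k_j`, where the `q_j` are powers
of `p` contained in `k`, the coefficients are nonzero elements of `k` and the exponents `d_jl` divide
`m`. For instance `X` is a power of `y ^ q - y = x_1 ^ d + ... + x_n ^ d`, `n` even.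

Theorem. For all `i` the algebraic classes span at least the part `2 ^ (-(c - 1))` of the space of the
Tate classes in `H^{2i}(X)`. Here `c` is the number of the classes of linked residues modulo `m`; it
depends only on `m` and on `p`, and it is at most `2 ^ r`, `r` being the number of the odd prime
divisors of `m`. There is no condition on `p`, on the exponents, on the `q_j` and on the dimensions.

*Cohomology.* Over an algebraic closure we may assume that the coefficients are `1`. The variety
`X_j` has cohomology in the degrees `0` and `2 k_j` only. The second one is the sum, over the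
`q_j - 1` nontrivial characters `ψ` of the additive group of the field with `q_j` elements, of the
tensor products of the spaces `H^1(A^1, L_ψ(x ^ d_jl))` (twice for every `l`), and the latter has a
basis indexed by the nonzero residues modulo `d_jl`, which we write as residues modulo `m` killed by
`d_jl`. Frobenius acts on these vectors by Gauss sums. So the cohomology of `X` has a basis consisting
of the `Element`s (`IsAdmissible`); all vectors of the basis are pure, and by Stickelberger's theorem a
vector is a Tate class if and only if the residues in it satisfy `IsGaussTate`.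

*Algebraic classes.* See `IsKnown`: closure of the pairs (Tate: divisors on products of two curves
`y ^ q - y = x ^ m`), of the characters of Fermat surfaces and of the standard characters.

The proof uses the parity theorem for products of Gauss sums
(`Pool.Agent.H547_as.gauss_parity`, from `Pool.Agent.H916Y.parity_main`): the number of the basis
vectors of the Tate classes with given parities is the autocorrelation of a distribution, so it is
largest when all parities are even.
-/

set_option autoImplicit false

namespace Pool.Agent.Results.MP_2a05c8_ag.ArtinSchreierProportion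

open Finset Pool.Agent.H916T

/-- Linked residues: two nonzero residues `a`, `b` modulo `m` such that the (additive) orders of `a`
and `b` have the same prime divisors, or both orders are even, or, for every unit `t` modulo `m`,
the representatives in `{1, ..., m - 1}` of the residues `p ^ j * t * a`, `0 ≤ j < f`, `f` being the
order of `p` modulo `m`, have the same sum as those of the residues `p ^ j * t * b`. -/
def Linked (p m : ℕ) (a b : ZMod m) : Prop :=
  a ≠ 0 ∧ b ≠ 0 ∧
    ((addOrderOf a).primeFactors = (addOrderOf b).primeFactors ∨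
      (Even (addOrderOf a) ∧ Even (addOrderOf b)) ∨
      ∀ t : (ZMod m)ˣ,
        ∑ j ∈ Finset.range (orderOf (p : ZMod m)), ((p : ZMod m) ^ j * ((t : ZMod m) * a)).val =
          ∑ j ∈ Finset.range (orderOf (p : ZMod m)), ((p : ZMod m) ^ j * ((t : ZMod m) * b)).val)

/-- The number of the classes of nonzero residues modulo `m` for the equivalence relation generated by
the links. -/
noncomputable def linkClasses (p m : ℕ) : ℕ := Set.ncard {C : Quot (Linked p m) | C ≠ Quot.mk _ 0}

/-- A multiset `s` of an even number of nonzero residues modulo `m`, such that for every unit `t`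
modulo `m` the representatives in `{1, ..., m - 1}` of the residues `p ^ j * t * a`, where `a ∈ s` and
`0 ≤ j < f`, `f` being the order of `p` modulo `m`, add up to `f * m * |s| / 2`: the product of the
corresponding Gauss sums is a root of unity times a power of `p`. -/
def IsGaussTate (p m : ℕ) (s : Multiset (ZMod m)) : Prop :=
  (0 : ZMod m) ∉ s ∧ Even (Multiset.card s) ∧
    ∀ t : (ZMod m)ˣ,
      2 * ∑ j ∈ Finset.range (orderOf (p : ZMod m)),
          (s.map fun a => ((p : ZMod m) ^ j * ((t : ZMod m) * a)).val).sum =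
        orderOf (p : ZMod m) * (m * Multiset.card s)

/-- The multiset `s` of residues modulo `m` is empty, or it becomes, after raising the degree to a
multiple prime to `p`, a member of the closure of the two element sets satisfying `IsGaussTate`, the
characters of surfaces and the standard characters. -/
def IsKnown (p m : ℕ) (s : Multiset (ZMod m)) : Prop :=
  s = 0 ∨ ∃ N : ℕ, 0 < N ∧ p.Coprime N ∧
    Generated (N * m)
      (fun t => (IsGaussTate p (N * m) t ∧ Multiset.card t = 2) ∨ SurfaceTate p (N * m) t ∨
        ∃ q : ℕ, q.Prime ∧ q ∣ N * m ∧ Standard q (N * m) t)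
      (s.map fun a => ((N * a.val : ℕ) : ZMod (N * m)))

section defs

variable {ι : Type} [Fintype ι]

/-- The elements of the basis of the cohomology of the product of the varieties
`y ^ q_j - y = sum_l (x_l ^ d_jl + z_l ^ d_jl)`, `1 ≤ l ≤ k_j`, for `j` in a finite set: for each `j`
the class `1` (`none`), or one of the `r_j = q_j - 1` nontrivial characters of the additive group of
the field with `q_j` elements and `k_j` pairs of residues modulo `m`. -/
abbrev Element (m : ℕ) (r k : ι → ℕ) : Type :=
  ∀ j, Option (Fin (r j) × (Fin (k j) → ZMod m × ZMod m))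

/-- The residues are not zero and they are killed by the corresponding exponents. -/
def IsAdmissible {m : ℕ} {r k : ι → ℕ} (d : ∀ j, Fin (k j) → ℕ) (b : Element m r k) : Prop :=
  ∀ j a, b j = some a → ∀ l,
    ((a.2 l).1 ≠ 0 ∧ (d j l : ZMod m) * (a.2 l).1 = 0) ∧
      ((a.2 l).2 ≠ 0 ∧ (d j l : ZMod m) * (a.2 l).2 = 0)

/-- Half of the degree of the cohomology in which the element lies. -/
def codim {m : ℕ} {r k : ι → ℕ} (b : Element m r k) : ℕ := ∑ j, (b j).elim 0 fun _ => k j

/-- All the residues in `b`. -/
def residues {m : ℕ} {r k : ι → ℕ} (b : Element m r k) : Multiset (ZMod m) :=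
  ∑ j, (b j).elim 0 fun a =>
    (univ : Finset (Fin (k j))).val.map (fun l => (a.2 l).1) +
      (univ : Finset (Fin (k j))).val.map fun l => (a.2 l).2

/-- The basis of the space of the Tate classes in the cohomology of degree `2 i` (over all finite
extensions of the field with `p` elements). -/
def tateBasis (p m : ℕ) (r k : ι → ℕ) (d : ∀ j, Fin (k j) → ℕ) (i : ℕ) : Set (Element m r k) :=
  {b | IsAdmissible d b ∧ codim b = i ∧ IsGaussTate p m (residues b)}

/-- The elements of this basis which are known to be algebraic. -/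
def knownBasis (p m : ℕ) (r k : ι → ℕ) (d : ∀ j, Fin (k j) → ℕ) (i : ℕ) : Set (Element m r k) :=
  {b | b ∈ tateBasis p m r k d i ∧ IsKnown p m (residues b)}

end defs

section proof

lemma rel0_iff {p m : ℕ} [NeZero m] (hpm : p.Coprime m) {s : Multiset (ZMod m)}
    (h0 : (0 : ZMod m) ∉ s) :
    H916Z.Rel0 p s ↔ ∀ t : (ZMod m)ˣ,
      2 * ∑ j ∈ Finset.range (orderOf (p : ZMod m)),
          (s.map fun a => ((p : ZMod m) ^ j * ((t : ZMod m) * a)).val).sum =
        orderOf (p : ZMod m) * (m * Multiset.card s) := by
  unfold H916Z.Rel0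
  refine forall_congr' fun t => ?_
  rw [val_sum_eq hpm s h0 t, sub_eq_zero]
  exact Nat.cast_inj

lemma base_of {p M : ℕ} [NeZero M] (hpM : p.Coprime M) {t : Multiset (ZMod M)}
    (h : H547_as.GBase p M t) :
    (IsGaussTate p M t ∧ Multiset.card t = 2) ∨ SurfaceTate p M t ∨
      ∃ q : ℕ, q.Prime ∧ q ∣ M ∧ Standard q M t := by
  rcases h with ⟨h1, h2, h3⟩ | h
  · exact Or.inl ⟨⟨h1, by rw [h2]; exact even_two, (rel0_iff hpM h1).mp h3⟩, h2⟩
  · exact Or.inr h

lemma known_of_concl {p m : ℕ} (hm : 0 < m) (hpm : p.Coprime m) {s : Multiset (ZMod m)}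
    (h : H547_as.GConcl p m s) : IsKnown p m s := by
  obtain ⟨N, hN, hpN, H⟩ := h
  refine Or.inr ⟨N, hN, hpN, ?_⟩
  have hz : NeZero (N * m) := ⟨(Nat.mul_pos hN hm).ne'⟩
  exact H916Z.generated_mono (fun t ht => base_of (Nat.Coprime.mul_right hpN hpm) ht)
    (H (N * m) rfl)

lemma W_val {p m : ℕ} [NeZero m] (hpm : p.Coprime m) {a : ZMod m} (ha : a ≠ 0) (t : (ZMod m)ˣ) :
    W p ((t : ZMod m) * a) =
      2 * ((∑ j ∈ Finset.range (orderOf (p : ZMod m)),
        ((p : ZMod m) ^ j * ((t : ZMod m) * a)).val : ℕ) : ℤ) - orderOf (p : ZMod m) * m := by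
  unfold W
  have hu := isUnit_p hpm
  have h1 : ∀ j ∈ Finset.range (orderOf (p : ZMod m)),
      H916R2.saw ((p : ZMod m) ^ j * ((t : ZMod m) * a)) =
        2 * ((((p : ZMod m) ^ j * ((t : ZMod m) * a)).val : ℕ) : ℤ) - m := by
    intro j _
    apply H916R2.saw_of_ne_zero
    intro h
    have h2 := ((hu.pow j).mul_right_eq_zero).mp h
    exact ha ((t.isUnit.mul_right_eq_zero).mp h2)
  rw [Finset.sum_congr rfl h1, Finset.sum_sub_distrib, ← Finset.mul_sum]
  push_cast
  simp

lemma linked_iff {p m : ℕ} [NeZero m] (hpm : p.Coprime m) (a b : ZMod m) :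
    H916Z.Link p a b ↔ Linked p m a b := by
  unfold H916Z.Link Linked
  constructor
  · rintro ⟨ha, hb, h | ⟨h1, h2⟩ | h⟩
    · exact ⟨ha, hb, Or.inl h⟩
    · exact ⟨ha, hb, Or.inr (Or.inl ⟨even_iff_two_dvd.mpr h1, even_iff_two_dvd.mpr h2⟩)⟩
    · refine ⟨ha, hb, Or.inr (Or.inr fun t => ?_)⟩
      have h1 := h t
      rw [W_val hpm ha, W_val hpm hb] at h1
      have h2 : ((∑ j ∈ Finset.range (orderOf (p : ZMod m)),
          ((p : ZMod m) ^ j * ((t : ZMod m) * a)).val : ℕ) : ℤ) =
        ((∑ j ∈ Finset.range (orderOf (p : ZMod m)),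
          ((p : ZMod m) ^ j * ((t : ZMod m) * b)).val : ℕ) : ℤ) := by linarith
      exact_mod_cast h2
  · rintro ⟨ha, hb, h | ⟨h1, h2⟩ | h⟩
    · exact ⟨ha, hb, Or.inl h⟩
    · exact ⟨ha, hb, Or.inr (Or.inl ⟨even_iff_two_dvd.mp h1, even_iff_two_dvd.mp h2⟩)⟩
    · refine ⟨ha, hb, Or.inr (Or.inr fun t => ?_)⟩
      rw [W_val hpm ha, W_val hpm hb, h t]

variable {ι : Type} [Fintype ι] {m : ℕ} {r k : ι → ℕ}

lemma map_residues_sum {M : Type} [AddCommMonoid M] (b : Element m r k) (G : ZMod m → M) :
    ((residues b).map G).sum = H547_as.sumE b G := by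
  unfold residues H547_as.sumE
  have h1 : ∀ s : Finset ι,
      ((∑ j ∈ s, ((b j).elim 0 fun a =>
        (univ : Finset (Fin (k j))).val.map (fun l => (a.2 l).1) +
          (univ : Finset (Fin (k j))).val.map fun l => (a.2 l).2 : Multiset (ZMod m))).map G).sum =
        ∑ j ∈ s, (b j).elim 0 fun a => ∑ l, G (a.2 l).1 + ∑ l, G (a.2 l).2 := by
    intro s
    classical
    induction s using Finset.induction_on with
    | empty => simp
    | insert j s hj ih =>
      rw [sum_insert hj, sum_insert hj, Multiset.map_add, Multiset.sum_add, ih]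
      congr 1
      rcases b j with _ | a
      · simp
      · simp only [Option.elim_some, Multiset.map_add, Multiset.sum_add, Multiset.map_map]
        rfl
  exact h1 univ

lemma mem_residues {b : Element m r k} {a : ZMod m} (ha : a ∈ residues b) :
    ∃ j, ∃ a', b j = some a' ∧ ∃ l, (a'.2 l).1 = a ∨ (a'.2 l).2 = a := by
  unfold residues at ha
  rw [Multiset.mem_sum] at ha
  obtain ⟨j, _, hj⟩ := ha
  rcases hb : b j with _ | a'
  · rw [hb] at hj
    simp at hj
  · rw [hb] at hj
    simp only [Option.elim_some, Multiset.mem_add, Multiset.mem_map] at hj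
    rcases hj with ⟨l, _, hl⟩ | ⟨l, _, hl⟩
    · exact ⟨j, a', hb, l, Or.inl hl⟩
    · exact ⟨j, a', hb, l, Or.inr hl⟩

lemma residues_good {d : ∀ j, Fin (k j) → ℕ} {b : Element m r k} (hb : IsAdmissible d b) :
    (0 : ZMod m) ∉ residues b ∧ Even (Multiset.card (residues b)) := by
  constructor
  · intro h0
    obtain ⟨j, a', hj, l, hl⟩ := mem_residues h0
    rcases hl with hl | hl
    · exact (hb j a' hj l).1.1 hl
    · exact (hb j a' hj l).2.1 hl
  · have h5 := map_residues_sum b fun _ => (1 : ℕ)
    have h6 : Multiset.card (residues b) = H547_as.sumE b fun _ => (1 : ℕ) := by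
      rw [← h5]; simp
    rw [h6]
    unfold H547_as.sumE
    refine Finset.even_sum _ fun j _ => ?_
    rcases b j with _ | a
    · simp
    · exact ⟨_, rfl⟩

lemma mem_tateBasis_iff [NeZero m] {p : ℕ} (hpm : p.Coprime m) (d : ∀ j, Fin (k j) → ℕ) (i : ℕ)
    (b : Element m r k) : b ∈ tateBasis p m r k d i ↔
      (IsAdmissible d b ∧ codim b = i) ∧
        H547_as.sumE b (fun a (t : (ZMod m)ˣ) => W p ((t : ZMod m) * a)) = 0 := by
  have hW : ∀ t : (ZMod m)ˣ, ((residues b).map fun a => W p ((t : ZMod m) * a)).sum =
      H547_as.sumE b (fun a (t : (ZMod m)ˣ) => W p ((t : ZMod m) * a)) t := by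
    intro t
    rw [map_residues_sum]
    unfold H547_as.sumE
    rw [Finset.sum_apply]
    refine sum_congr rfl fun j _ => ?_
    rcases b j with _ | a
    · simp
    · simp [Finset.sum_apply]
  constructor
  · rintro ⟨h1, h2, h0, _, h3⟩
    refine ⟨⟨h1, h2⟩, ?_⟩
    funext t
    rw [← hW, (rel0_iff hpm h0).mpr h3 t]
    rfl
  · rintro ⟨⟨h1, h2⟩, h3⟩
    obtain ⟨h4, h5⟩ := residues_good h1
    refine ⟨h1, h2, h4, h5, (rel0_iff hpm h4).mp fun t => ?_⟩
    rw [hW, h3]
    rfl

end proof

/-- **The Tate conjecture for products of smooth affine Artin-Schreier varieties, up to a factor which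
depends only on the prime divisors of the exponents.** -/
theorem result (p m : ℕ) (hp : p.Prime) (hm : 0 < m) (hpm : p.Coprime m) :
    linkClasses p m ≤ 2 ^ (m.primeFactors.erase 2).card ∧
    ∀ (ι : Type) [Fintype ι] (r k : ι → ℕ) (d : ∀ j, Fin (k j) → ℕ), (∀ j l, d j l ∣ m) →
      ∀ i : ℕ, (tateBasis p m r k d i).ncard ≤
        2 ^ (linkClasses p m - 1) * (knownBasis p m r k d i).ncard := by
  classical
  have hz : NeZero m := ⟨hm.ne'⟩
  refine ⟨H547_pp.ncard_classes_le (p := p) (Linked p m)
    fun a b hab => (linked_iff hpm a b).1 hab, ?_⟩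
  intro ι _ r k d _ i
  have hQ : Finite (Quot (Linked p m)) := Quot.finite _
  have hQF : Fintype (Quot (Linked p m)) := Fintype.ofFinite _
  have hne0 : ∀ a : ZMod m, a ≠ 0 → Quot.mk (Linked p m) a ≠ Quot.mk _ 0 := by
    intro a ha h0
    rw [Quot.eq] at h0
    have h1 : ∀ x y : ZMod m, Relation.EqvGen (Linked p m) x y → (x = 0 ↔ y = 0) := by
      intro x y hxy
      induction hxy with
      | rel x y hxy => exact iff_of_false hxy.1 hxy.2.1
      | refl x => exact Iff.rfl
      | symm x y _ ih => exact ih.symm
      | trans x y z _ _ ih1 ih2 => exact ih1.trans ih2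
    exact ha ((h1 a 0 h0).2 rfl)
  have hcl : ∀ a : ZMod m, Quot.mk (Linked p m) (-a) = Quot.mk (Linked p m) a := by
    intro a
    by_cases ha : a = 0
    · rw [ha, neg_zero]
    · exact Quot.sound ((linked_iff hpm _ _).1 (H547_pp.link_neg ha))
  refine H547_as.count_paired (fun a : ZMod m => Quot.mk (Linked p m) a) hcl
    {C : Quot (Linked p m) | C ≠ Quot.mk _ 0}
    (fun a (t : (ZMod m)ˣ) => W p ((t : ZMod m) * a))
    (fun a => by
      funext t
      simp only [mul_neg, W_neg, Pi.neg_apply])
    (fun j l a => a ≠ 0 ∧ (d j l : ZMod m) * a = 0)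
    (fun j l a ha => ⟨neg_ne_zero.2 ha.1, by rw [mul_neg, ha.2, neg_zero]⟩)
    (fun j l a ha => hne0 a ha.1) i (tateBasis p m r k d i) (knownBasis p m r k d i)
    (fun b => mem_tateBasis_iff hpm d i b) ?_
  intro b hT hb2
  refine ⟨hT, ?_⟩
  by_cases hne : residues b = 0
  · exact Or.inl hne
  apply known_of_concl hm hpm
  obtain ⟨_, _, h0, he, h3⟩ := hT
  refine H547_as.gauss_parity hp hm hpm h0 he ((rel0_iff hpm h0).mpr h3) hne ?_
  intro a
  have h1 : ((residues b).map fun x => if Quot.mk (Linked p m) x = Quot.mk (Linked p m) a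
      then (1 : ZMod 2) else 0).sum = 0 := by
    rw [map_residues_sum]
    exact hb2 (Quot.mk (Linked p m) a)
  rw [← H547_pp.countP_cast, ZMod.natCast_eq_zero_iff, ← even_iff_two_dvd] at h1
  have hLL : H916Z.Link p = Linked p m := by
    funext x y
    exact propext (linked_iff hpm x y)
  have h2 : (residues b).countP (fun x => Relation.EqvGen (H916Z.Link p) a x) =
      (residues b).countP (fun x => Quot.mk (Linked p m) x = Quot.mk (Linked p m) a) := by
    rw [hLL]
    refine Multiset.countP_congr rfl fun x _ => ?_
    rw [← Quot.eq]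
    exact propext eq_comm
  rw [h2]
  exact h1

end Pool.Agent.Results.MP_2a05c8_ag.ArtinSchreierProportion
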