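import Pool.Agent.H547_as.PrimePow

/-!
# The Tate conjecture for smooth affine Artin-Schreier varieties of diagonal type

Let `k` be a finitely generated field of characteristic `p > 0` and let `X` be the product of the
smooth affine hypersurfaces `X_j`: `y ^ q_j - y = c_j1 * x_1 ^ d_j1 + ... + c_jn * x_n ^ d_jn` in affine
space, where the `q_j` are powers of `p` contained in `k`, the `c_jl` are nonzero elements of `k` and
the exponents `d_jl` are prime to `p`; the numbers `n = n_j` of the variables are arbitrary.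

Theorem. `T^i(X)` holds for all `i` if every exponent `d_jl` is a power of a prime number, or twice
such a power, or divides `p ^ e + 1` for some `e` (the prime numbers may be different for different
exponents); or if the prime divisors of all exponents lie in `{2, 3, 5}`, or in `{2, 3, 7}`, or in
`{2, r}` for a prime number `r` congruent to `7` modulo `8`; or if all exponents are odd and their
prime divisors lie in `{3, 11}` or in `{3, 13}`.

*Cohomology.* Over an algebraic closure we may assume `c_jl = 1`. The variety `X_j` has cohomology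
in the degrees `0` and `n_j` only. The second one is the sum, over the nontrivial characters `ψ` of
the additive group of the field with `q_j` elements, of the tensor products of the spaces
`H^1(A^1, L_ψ(x ^ d_jl))`, and the latter has a basis indexed by the nonzero residues `a` modulo
`d_jl` (the characters of the group of `d_jl`-th roots of unity), which we write as residues modulo
a common multiple `m` killed by `d_jl`. Frobenius acts on these vectors by Gauss sums. So the
cohomology of `X` has a basis consisting of the `Element`s (`IsAdmissible`), the characters `ψ` being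
added; all vectors of the basis are pure, and by Stickelberger's theorem a vector is a Tate class
(over some finite field) if and only if the residues in it satisfy `IsGaussTate`. The condition is
independent of the `ψ`.

*Algebraic classes.* For a multiset of residues modulo `m` to be algebraic means that the
corresponding class in the cohomology of the product of copies of the curve `y ^ q - y = x ^ m` is
algebraic. This is so for the pairs satisfying `IsGaussTate` (Tate: divisors on products of curves),
for the characters of Fermat surfaces (`SurfaceTate`, Tate and Shioda and Katsura), for the standard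
characters (Aoki and Shioda) by the theorem of Katz on Gauss and Jacobi sums, for unions, and one can
remove pairs `{a, -a}` by Poincare duality. One can raise the degree by pullback.

The proof: if `s` satisfies `IsGaussTate` for `m` then, over the degree `(p - 1) * m`, there is a `b`
such that `s` and `b`, `-p * b` form a Tate character; then the parity theorem
(`Pool.Agent.H916Y.parity_main`) applies. For the exponents which are prime powers or twice prime
powers, the numbers of the residues of `ℓ`-power order are even by the theorem of Dirichlet on the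
nonvanishing of `L(1, χ)`.
-/

set_option autoImplicit false

namespace Pool.Agent.Results.MP_2a05c8_ag.ArtinSchreierVarieties

open Finset Pool.Agent.H916T

/-- A multiset `s` of an even number of nonzero residues modulo `m`, such that for every unit `t`
modulo `m` the representatives in `{1, ..., m - 1}` of the residues `p ^ j * t * a`, where `a ∈ s` and
`0 ≤ j < f`, `f` being the order of `p` modulo `m`, add up to `f * m * |s| / 2`: the product of the
corresponding Gauss sums is a root of unity times a power of `p`. -/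
def IsGaussTate (p m : ℕ) (s : Multiset (ZMod m)) : Prop :=
  (0 : ZMod m) ∉ s ∧ Even (Multiset.card s) ∧
    ∀ t : (ZMod m)ˣ,
      2 * ∑ j ∈ Finset.range (orderOf (p : ZMod m)),
          (s.map fun a => ((p : ZMod m) ^ j * ((t : ZMod m) * a)).val).sum =
        orderOf (p : ZMod m) * (m * Multiset.card s)

/-- The multiset `s` of residues modulo `m` is empty, or it becomes, after raising the degree to a
multiple prime to `p`, a member of the closure of the two element sets satisfying `IsGaussTate`, the
characters of surfaces and the standard characters. -/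
def IsKnown (p m : ℕ) (s : Multiset (ZMod m)) : Prop :=
  s = 0 ∨ ∃ N : ℕ, 0 < N ∧ p.Coprime N ∧
    Generated (N * m)
      (fun t => (IsGaussTate p (N * m) t ∧ Multiset.card t = 2) ∨ SurfaceTate p (N * m) t ∨
        ∃ q : ℕ, q.Prime ∧ q ∣ N * m ∧ Standard q (N * m) t)
      (s.map fun a => ((N * a.val : ℕ) : ZMod (N * m)))

section defs

variable {ι : Type} [Fintype ι]

/-- The common multiple of the exponents modulo which the residues are taken: their product. -/
def level {n : ι → ℕ} (d : ∀ j, Fin (n j) → ℕ) : ℕ := ∏ j, ∏ l, d j l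

/-- The elements of the basis of the cohomology of the product of the varieties
`y ^ q_j - y = x_1 ^ d_j1 + ... + x_n ^ d_jn`, `n = n_j`, for `j` in a finite set: for each `j` the
class `1` (`none`) or a tuple of `n_j` residues modulo `m`. -/
abbrev Element (m : ℕ) (n : ι → ℕ) : Type := ∀ j, Option (Fin (n j) → ZMod m)

/-- The residues are not zero and they are killed by the corresponding exponents. -/
def IsAdmissible {n : ι → ℕ} (d : ∀ j, Fin (n j) → ℕ) (b : Element (level d) n) : Prop :=
  ∀ j a, b j = some a → ∀ l, a l ≠ 0 ∧ (d j l : ZMod (level d)) * a l = 0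

/-- The degree of the cohomology in which the element lies. -/
def degree {m : ℕ} {n : ι → ℕ} (b : Element m n) : ℕ :=
  ∑ j, (b j).elim 0 fun _ => n j

/-- All the residues in `b`. -/
def residues {m : ℕ} {n : ι → ℕ} (b : Element m n) : Multiset (ZMod m) :=
  ∑ j, (b j).elim 0 fun a => (univ : Finset (Fin (n j))).val.map a

/-- The basis of the space of the Tate classes of degree `2 i` (over all finite extensions of the
field with `p` elements) on the product of the varieties. -/
def tateBasis (p : ℕ) {n : ι → ℕ} (d : ∀ j, Fin (n j) → ℕ) (i : ℕ) : Set (Element (level d) n) :=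
  {b | IsAdmissible d b ∧ degree b = 2 * i ∧ IsGaussTate p (level d) (residues b)}

/-- The prime divisors of all the exponents are `2`, `a` or `b`. -/
def PrimesIn {n : ι → ℕ} (d : ∀ j, Fin (n j) → ℕ) (a b : ℕ) : Prop :=
  ∀ j l r, r.Prime → r ∣ d j l → r = 2 ∨ r = a ∨ r = b

/-- The conditions on the exponents. -/
def GoodExponents (p : ℕ) {n : ι → ℕ} (d : ∀ j, Fin (n j) → ℕ) : Prop :=
  (∀ j l, (∃ ℓ k : ℕ, ℓ.Prime ∧ (d j l = ℓ ^ k ∨ d j l = 2 * ℓ ^ k)) ∨ ∃ e : ℕ, d j l ∣ p ^ e + 1) ∨
    PrimesIn d 3 5 ∨ PrimesIn d 3 7 ∨ (∃ r : ℕ, r.Prime ∧ r % 8 = 7 ∧ PrimesIn d r r) ∨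
    ((∀ j l, Odd (d j l)) ∧ (PrimesIn d 3 11 ∨ PrimesIn d 3 13))

end defs

section proof

variable {ι : Type} [Fintype ι]

lemma rel0_iff {p m : ℕ} [NeZero m] (hpm : p.Coprime m) {s : Multiset (ZMod m)}
    (h0 : (0 : ZMod m) ∉ s) :
    H916Z.Rel0 p s ↔ ∀ t : (ZMod m)ˣ,
      2 * ∑ j ∈ Finset.range (orderOf (p : ZMod m)),
          (s.map fun a => ((p : ZMod m) ^ j * ((t : ZMod m) * a)).val).sum =
        orderOf (p : ZMod m) * (m * Multiset.card s) := by
  unfold H916Z.Rel0
  refine forall_congr' fun t => ?_
  rw [val_sum_eq hpm s h0 t, sub_eq_zero]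
  exact Nat.cast_inj

lemma base_of {p M : ℕ} [NeZero M] (hpM : p.Coprime M) {t : Multiset (ZMod M)}
    (h : H547_as.GBase p M t) :
    (IsGaussTate p M t ∧ Multiset.card t = 2) ∨ SurfaceTate p M t ∨
      ∃ q : ℕ, q.Prime ∧ q ∣ M ∧ Standard q M t := by
  rcases h with ⟨h1, h2, h3⟩ | h
  · exact Or.inl ⟨⟨h1, by rw [h2]; exact even_two, (rel0_iff hpM h1).mp h3⟩, h2⟩
  · exact Or.inr h

lemma known_of_concl {p m : ℕ} (hm : 0 < m) (hpm : p.Coprime m) {s : Multiset (ZMod m)}
    (h : H547_as.GConcl p m s) : IsKnown p m s := by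
  obtain ⟨N, hN, hpN, H⟩ := h
  refine Or.inr ⟨N, hN, hpN, ?_⟩
  have hz : NeZero (N * m) := ⟨(Nat.mul_pos hN hm).ne'⟩
  exact H916Z.generated_mono (fun t ht => base_of (Nat.Coprime.mul_right hpN hpm) ht)
    (H (N * m) rfl)

lemma mem_residues {m : ℕ} {n : ι → ℕ} {b : Element m n} {a : ZMod m} (ha : a ∈ residues b) :
    ∃ j, ∃ a', b j = some a' ∧ ∃ l, a' l = a := by
  unfold residues at ha
  rw [Multiset.mem_sum] at ha
  obtain ⟨j, _, hj⟩ := ha
  rcases hb : b j with _ | a'
  · rw [hb] at hj
    simp at hj
  · rw [hb] at hj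
    simp only [Option.elim_some, Multiset.mem_map] at hj
    obtain ⟨l, _, hl⟩ := hj
    exact ⟨j, a', hb, l, hl⟩

lemma order_dvd {n : ι → ℕ} {d : ∀ j, Fin (n j) → ℕ} {b : Element (level d) n}
    (hb : IsAdmissible d b) {a : ZMod (level d)} (ha : a ∈ residues b) :
    ∃ j l, addOrderOf a ∣ d j l := by
  obtain ⟨j, a', hj, l, rfl⟩ := mem_residues ha
  refine ⟨j, l, ?_⟩
  rw [addOrderOf_dvd_iff_nsmul_eq_zero, nsmul_eq_mul]
  exact (hb j a' hj l).2

lemma pp_of_dvd {e d : ℕ} (h : e ∣ d) (hd : H547_as.PP d) : H547_as.PP e := by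
  obtain ⟨ℓ, k, hℓ, hk⟩ := hd
  rcases hk with rfl | rfl
  · obtain ⟨j, _, rfl⟩ := (Nat.dvd_prime_pow hℓ).mp h
    exact ⟨ℓ, j, hℓ, Or.inl rfl⟩
  · by_cases h2 : 2 ∣ e
    · obtain ⟨e', rfl⟩ := h2
      have h3 : e' ∣ ℓ ^ k := Nat.dvd_of_mul_dvd_mul_left two_pos h
      obtain ⟨j, _, rfl⟩ := (Nat.dvd_prime_pow hℓ).mp h3
      exact ⟨ℓ, j, hℓ, Or.inr rfl⟩
    · have h3 : e ∣ ℓ ^ k :=
        ((Nat.prime_two.coprime_iff_not_dvd.mpr h2).symm).dvd_of_dvd_mul_left h
      obtain ⟨j, _, rfl⟩ := (Nat.dvd_prime_pow hℓ).mp h3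
      exact ⟨ℓ, j, hℓ, Or.inl rfl⟩

lemma prime_dvd_level {n : ι → ℕ} {d : ∀ j, Fin (n j) → ℕ} {r : ℕ} (hr : r.Prime)
    (h : r ∣ level d) : ∃ j l, r ∣ d j l := by
  unfold level at h
  obtain ⟨j, _, hj⟩ := (Prime.dvd_finsetProd_iff hr.prime _).mp h
  obtain ⟨l, _, hl⟩ := (Prime.dvd_finsetProd_iff hr.prime _).mp hj
  exact ⟨j, l, hl⟩

end proof

/-- **The Tate conjecture for products of Artin-Schreier varieties of diagonal type.** -/
theorem result (p : ℕ) (hp : p.Prime) (ι : Type) [Fintype ι] (n : ι → ℕ)
    (d : ∀ j, Fin (n j) → ℕ) (hd : ∀ j l, ¬ p ∣ d j l) (hgood : GoodExponents p d) (i : ℕ)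
    (b : Element (level d) n) (hb : b ∈ tateBasis p d i) : IsKnown p (level d) (residues b) := by
  classical
  have hm : 0 < level d := by
    refine Finset.prod_pos fun j _ => Finset.prod_pos fun l _ => ?_
    exact Nat.pos_of_ne_zero fun h => hd j l (h ▸ dvd_zero p)
  have hz : NeZero (level d) := ⟨hm.ne'⟩
  have hpm : p.Coprime (level d) := by
    rw [hp.coprime_iff_not_dvd]
    intro h
    obtain ⟨j, l, hjl⟩ := prime_dvd_level hp h
    exact hd j l hjl
  obtain ⟨hadm, _, h0, he, hT⟩ := hb
  have hr : H916Z.Rel0 p (residues b) := (rel0_iff hpm h0).mpr hT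
  by_cases hne : residues b = 0
  · exact Or.inl hne
  apply known_of_concl hm hpm
  rcases hgood with h | h | h | ⟨r, hr1, hr7, h⟩ | ⟨hodd, h⟩
  · refine H547_as.gauss_parity hp hm hpm h0 he hr hne ?_
    intro a
    convert H547_as.parity_PP hm hpm h0 he hr (fun c hc => ?_) a
    obtain ⟨j, l, hjl⟩ := order_dvd hadm hc
    rcases h j l with h1 | ⟨e, h1⟩
    · exact Or.inl (pp_of_dvd hjl h1)
    · exact Or.inr ⟨e, hjl.trans h1⟩
  · refine H547_as.gauss_of_level hp hm hpm h0 he hr hne ?_
    intro K hK hpK hKm s' hs' hne'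
    refine H916Y.all235 hp (Nat.mul_pos hK hm) (Nat.Coprime.mul_right hpK hpm) ?_ hs' hne'
    intro q hq hqd
    have h1 : q ∣ level d := (hq.dvd_mul.mp hqd).elim (hKm q hq) id
    obtain ⟨j, l, hjl⟩ := prime_dvd_level hq h1
    exact h j l q hq hjl
  · refine H547_as.gauss_of_level hp hm hpm h0 he hr hne ?_
    intro K hK hpK hKm s' hs' hne'
    refine H916Y.all237 hp (Nat.mul_pos hK hm) (Nat.Coprime.mul_right hpK hpm) ?_ hs' hne'
    intro q hq hqd
    have h1 : q ∣ level d := (hq.dvd_mul.mp hqd).elim (hKm q hq) id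
    obtain ⟨j, l, hjl⟩ := prime_dvd_level hq h1
    exact h j l q hq hjl
  · refine H547_as.gauss_of_level hp hm hpm h0 he hr hne ?_
    intro K hK hpK hKm s' hs' hne'
    refine H916Y.allq7 hp (Nat.mul_pos hK hm) (Nat.Coprime.mul_right hpK hpm) hr1 hr7 ?_ hs' hne'
    intro q hq hqd
    have h1 : q ∣ level d := (hq.dvd_mul.mp hqd).elim (hKm q hq) id
    obtain ⟨j, l, hjl⟩ := prime_dvd_level hq h1
    exact (h j l q hq hjl).imp id (fun h' => h'.elim id id)
  · have hoddK : ∀ K : ℕ, (∀ q, q.Prime → q ∣ K → q ∣ level d) → ¬ 4 ∣ K * level d := by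
      intro K hKm h4
      have h2 : 2 ∣ K * level d := Dvd.dvd.trans (by norm_num) h4
      have h1 : 2 ∣ level d := (Nat.prime_two.dvd_mul.mp h2).elim (hKm 2 Nat.prime_two) id
      obtain ⟨j, l, hjl⟩ := prime_dvd_level Nat.prime_two h1
      exact (Nat.not_even_iff_odd.mpr (hodd j l)) (even_iff_two_dvd.mpr hjl)
    rcases h with h | h
    · refine H547_as.gauss_of_level hp hm hpm h0 he hr hne ?_
      intro K hK hpK hKm s' hs' hne'
      refine H916Y.all2311 hp (Nat.mul_pos hK hm) (hoddK K hKm) (Nat.Coprime.mul_right hpK hpm)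
        ?_ hs' hne'
      intro q hq hqd
      have h1 : q ∣ level d := (hq.dvd_mul.mp hqd).elim (hKm q hq) id
      obtain ⟨j, l, hjl⟩ := prime_dvd_level hq h1
      exact h j l q hq hjl
    · refine H547_as.gauss_of_level hp hm hpm h0 he hr hne ?_
      intro K hK hpK hKm s' hs' hne'
      refine H916Y.all2313 hp (Nat.mul_pos hK hm) (hoddK K hKm) (Nat.Coprime.mul_right hpK hpm)
        ?_ hs' hne'
      intro q hq hqd
      have h1 : q ∣ level d := (hq.dvd_mul.mp hqd).elim (hKm q hq) id
      obtain ⟨j, l, hjl⟩ := prime_dvd_level hq h1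
      exact h j l q hq hjl

end Pool.Agent.Results.MP_2a05c8_ag.ArtinSchreierVarieties
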