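import Mathlib
import Pool.Agent.Helper33_ct.Split
import Pool.Agent.Helper33_ct.Angle

/-!
# The Tate conjecture for the products of arbitrary smooth varieties with abelian varieties with one
Frobenius element with dominating slopes

Let `k` be a finitely generated field of any characteristic, `A` an abelian variety over `k` of any
dimension and with arbitrary endomorphisms, and let `γ` be a Frobenius element of the Galois group
`Γ` of `k` at **one** place of good reduction, the residue field having `p ^ a` elements, for which
the characteristic polynomial on the Tate module `V = V_ℓ (A)` is the product of the minimal
polynomials of Weil numbers `π i` which generate CM fields `K i`, `π i * conj (π i) = p ^ a`, where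

* each `π i` is of dominant type (the new case), of pair type or of flip type. Dominant type: let
  `w τ = 2 v (τ (π i)) - a` be the normalised valuations, `τ` running through the embeddings of `K i`
  in the algebraic closure of the `p`-adic numbers; there is `τ₀` with `w τ₀ ≠ 0` such that the
  sum of all `|w τ|` is less than `4 |w τ₀|`, or it is equal to `4 |w τ₀|` and `π i` is not of norm
  type: there is no subfield `E` of `K i`, different from `K i` and not totally real, such that for
  every embedding of `E` the sum of the `w τ` over its extensions `τ` to `K i` is zero. There is no
  condition on the Galois group, the degree and the ramification of `K i`. For instance (simple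
  factors of the reduction with commutative endomorphism algebra) the slopes are `0` and `1` once and
  `1/2` otherwise, or they are `0` and `1` twice, `1/2` otherwise, and `π i` is not of norm type;
* for `i ≠ j` embeddings of `K i` and `K j` are cross flipped: some automorphism of the complex
  numbers fixes one and conjugates the other (this is no condition if there is only one field).

Let `U` be an **arbitrary smooth variety** over `k`, proper or not, and `M = W_b H^b(U, ℚ_ℓ(i))`, or
any other representation of `Γ`, such that

* the eigenvalues of `γ` on `M` are roots of a polynomial `f ≠ 0` with rational coefficients all of
  whose complex roots `α` are unrelated to the fields `K i` (`UnrelatedTo`): a function `n` on the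
  complex embeddings of `K i` with `n (conj φ) = - n φ` which is invariant under all automorphisms of
  `ℂ` that fix a power of `α` is zero. This is so if for each embedding `ψ` of `K i` some automorphism
  which fixes a power of `α` is the complex conjugation on `ψ (K i)`: for instance, if a power of `α`
  lies in a field linearly disjoint from the normal closures of the `K i`, or in a totally real field.
  It is also so if the degree of `α` (which is at most the Betti number) is less than twice the
  dimension of each nonzero space of functions `n` stable under all automorphisms of `ℂ`.

Then (`ClassesSplit`) **the classes in `H^j(A ^ r) ⊗ M` which are fixed by an open subgroup of `Γ` are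
zero for odd `j`, and linear combinations of products of `m` Tate classes of degree two on `A ^ r` (that
is, of divisor classes, by Tate, Zarhin and Faltings) and of Tate classes in `M(-m)` for `j = 2 m`.**
The classes in `H^j(A ^ r) ⊗ M` are the alternating maps of `j` variables from `V ^ r` to `M`. So for
all these `A` and all these smooth varieties `U` the Tate conjecture for `A ^ r × U` (all codimensions,
all `r`, over all finite extensions) is equivalent to the Tate conjecture for `U`. If `U` is a point it
is the Tate conjecture for all powers of `A`. The hypotheses on `V` (`IsPolarised`) are the Weil
pairing and the semisimplicity (Tate, Zarhin, Faltings).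

The proof: `π` has maximal angle rank (`Pool.Agent.Helper33_ct.Angle`, new), and for such `π` the
statement is the second part of the starting file `AllCMTypesTimesSmooth`, whose proof is copied in
`Helper33_ct.Forces` and `Helper33_ct.Split` with fewer imports.
-/

set_option autoImplicit false

namespace Pool.Agent.Results.MP_2a05c8_ag.DominantTimesSmooth

open NumberField IntermediateField Pool.Agent.Y1.TS Pool.Agent.H194R3.Tate Pool.Agent.Helper33Dom

theorem result (p : ℕ) [Fact p.Prime] (a : ℕ) (ha : 0 < a) {I : Type} [Fintype I]
    (K : I → Type) [∀ i, Field (K i)] [∀ i, NumberField (K i)] [∀ i, IsCMField (K i)]
    (π : ∀ i, K i) (hgen : ∀ i, ℚ⟮π i⟯ = ⊤)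
    (hweil : ∀ i, π i * IsCMField.complexConj (K i) (π i) = (p : K i) ^ a)
    (hπ : ∀ i, DominantType p a (π i) ∨ PairType p a (π i) ∨ FlipType p a (π i))
    (hcross : ∀ i j, i ≠ j → ∀ (φ : K i →+* ℂ) (ψ : K j →+* ℂ), CrossFlipped φ ψ) :
    TateClassesSplit (p := p) a K π :=
  Pool.Agent.Helper33Ct.split_of_angle hgen hweil
    (Pool.Agent.Helper33Ct.angle_of_family p a ha π hweil hπ hcross)

end Pool.Agent.Results.MP_2a05c8_ag.DominantTimesSmooth
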