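import Pool.Agent.Helper793_Tate.TSm

/-!
# The Tate conjecture for products of smooth varieties whose Frobenius fields at one place are
# separated

Let `F` be a finite field or a number field (or any finitely generated field), and let `v` be **one**
place of `F`, with a residue field with `p ^ a` elements, at which the cohomology of all varieties
below is unramified (`v` is not needed if `F` is finite). Let `g` be the geometric Frobenius element
at `v`. The varieties are smooth, and they need not be proper; by Deligne the eigenvalues of `g` on
their cohomology are Weil numbers (of various weights), and up to powers of `p` and roots of unity
they generate CM fields.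

We consider finitely many CM fields `K r` and Weil numbers `π r` in `K r`, divided into blocks: `b r`
is the block of `r`. A smooth variety belongs to the block `i` if some powers of the eigenvalues of `g`
on its cohomology are products of powers of `p` and of conjugates of the `π r` with `b r = i`
(`EigenvaluesIn`). The fields `K r`, `K s` of different blocks are supposed to be separated: for
instance

* one of them is an imaginary quadratic field which is not contained in the other one; or
* the degrees of their maximal real subfields are coprime and odd, and they contain no common
  imaginary quadratic field; or
* the maximal real subfield of one of them is linearly disjoint from the Galois closure of the other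
  one, and they contain no common imaginary quadratic field; or
* the degree of one of them is twice a prime number, it is not contained in the Galois closure of
  the other one, and they contain no common imaginary quadratic field; or
* any two embeddings of the two fields in the complex numbers are cross flipped.

**Theorem.** Let `U` be any smooth variety of the block `i₀`, let `X_1, …, X_m` be smooth varieties of
pairwise different blocks, different from `i₀`, for which `g` is generic, and
`Y = X_1 × ⋯ × X_m × U`.

* All Tate classes on `Y` are linear combinations of **products of Tate classes on the factors**.
* For every `n` the Tate conjecture in codimension `≤ n` for `Y` holds **if and only if** it holds in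
  codimension `≤ n` for `U` and for all `X_r`.

Here `g` is generic for `X` (`IsGeneric`) if it has on every subspace of the cohomology of `X` which is
stable under a subgroup of finite index of the Galois group, and which is not contained in the span
of the Tate classes, an eigenvalue no power of which is a power of `p`. Nothing like this is assumed
for `U`, and no semisimplicity: the cohomology of `U` can be mixed.

**Examples.** Let `X` and `U` be two smooth varieties over a number field or a finite field, proper or
not, with any exotic Tate classes. Suppose that at one place the Frobenius eigenvalues of `X` and of
`U` are in the groups generated by the conjugates of Weil numbers in CM fields `K_1, K_2, …` and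
`K'_1, K'_2, …` (and by roots of unity and powers of `p`), where the degrees of the maximal real
subfields of the `K_r` are odd and prime to the degrees of the ones of the `K'_s`, also odd, and `K_r`
and `K'_s` contain no common imaginary quadratic field. Then, if `g` is generic for `X`, the Tate
conjecture in codimension `≤ n` for `X × U` is equivalent to the ones for `X` and for `U`. If `X` is a
power of an abelian variety with maximal angle rank, for instance of an ordinary elliptic curve, this
is contained in the starting file `MP_2a05c8_ag.AllCMTypesTimesSmooth`; there the multiplicative
relations between the eigenvalues of `X` have to be the trivial ones, and here they are arbitrary.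

## The formal statement

`C : SmCohomology k` is a cohomology theory for the smooth varieties over the algebraically closed
field `k`: finite-dimensional graded algebras over a field `C.K` (here algebraically closed of
characteristic zero), pull-backs, the Künneth formula, and classes of algebraic cycles which are
compatible with pull-backs and products; no duality, trace or purity is assumed. `Γ` is a group (the
Galois group), `χ` a character (the inverse of the cyclotomic character), and an `OVar C Γ` is a
smooth variety with an action of `Γ` on its cohomology algebra. `TateUpTo χ n X` says that for `j ≤ n`
all elements of `H^(2j)(X)` which are multiplied by `χ g ^ j` by all `g` in a subgroup of finite index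
are linear combinations of classes of algebraic cycles of codimension `j`. `IsTower F U l Y` says that
`Y = X_1 × (X_2 × ( ⋯ × U))`, where the list `l` consists of the pairs of a block and a member `X_r`
of this block. `TateClassesSplit χ U l Y` says that all Tate classes on `Y` are linear combinations of
products of Tate classes on the factors, with the right sum of the codimensions.

## Relation to other files

`MP_2a05c8_ag.AlmostAllFactors` has the same conclusions for almost all members of a family, if the
groups generated by the eigenvalues are multiplicatively independent; here the independence follows
from the separation of the fields (`relation_split`), for one given Frobenius element, and no member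
has to be excluded. `MP_021685_ag.SeparatedFrobeniusFields` is about smooth projective varieties and
all codimensions at once, for Weil cohomologies on smaller classes of varieties.
-/

open CategoryTheory AlgebraicGeometry NumberField

universe u

namespace Pool.Agent.Results.MP_2a05c8_ag.SeparatedFrobeniusFields

open Pool.Agent.H621.OV Pool.Agent.Helper793_Prime Pool.Agent.Helper793_Tate.Smooth

/-- **The Tate conjecture for products of smooth varieties with separated Frobenius fields.** -/
theorem result {k : Type u} [Field k] {C : SmCohomology k} [IsAlgClosed C.K] [CharZero C.K]
    {Γ : Type} [Group Γ] (χ : Γ →* C.Kˣ) (p : ℕ) [Fact p.Prime] {I J : Type} [Fintype I]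
    (K : I → Type) [∀ r, Field (K r)] [∀ r, NumberField (K r)] [∀ r, IsCMField (K r)] (m : I → ℕ)
    (π : ∀ r, K r) (hint : ∀ r, IsIntegral ℤ (π r))
    (hweil : ∀ r, ∀ φ : K r →+* ℂ, ‖φ (π r)‖ ^ 2 = (p : ℝ) ^ m r)
    (b : I → J) (hsep : ∀ r s, b r ≠ b s → Separated (K r) (K s))
    (g : Γ) (a : ℕ) (ha : 0 < a) (hg : (χ g : C.K) = (p : C.K) ^ a)
    (i₀ : J) (U : OVar C Γ) (hU : EigenvaluesIn p π {r | b r = i₀} g U)
    (l : List (J × OVar C Γ)) (Y : OVar C Γ) (hY : IsTower (blockOf χ p π b g) U l Y)
    (hl : ∀ q ∈ l, q.1 ≠ i₀) :
    TateClassesSplit χ U l Y ∧
      ∀ n : ℕ, TateUpTo χ n Y ↔ TateUpTo χ n U ∧ ∀ q ∈ l, TateUpTo χ n q.2 := by
  have hw : ∀ r, ∀ φ : K r →+* ℂ, ‖φ (π r)‖ ^ 2 = (((p : ℚ) ^ m r : ℚ) : ℝ) :=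
    fun r φ => by rw [hweil r φ]; push_cast; rfl
  exact ⟨split_separated p ha m π hint hw b hsep hg hU hY hl,
    tate_separated p ha m π hint hw b hsep hg hU hY hl⟩

end Pool.Agent.Results.MP_2a05c8_ag.SeparatedFrobeniusFields
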